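import Mathlib
import Pool.Agent.H529.G.Final
import Pool.Agent.H339.FP.Freq44
import Pool.Agent.H529.R.Dens

/-!
# Differences of arbitrary sets of integers which are gaps between consecutive primes

Call `d` a frequent gap if for every `ε > 0` there are arbitrarily large `x` with at least `x ^ (1 - ε)`
primes `p_n ≤ x` such that `p_{n+1} - p_n = d`. One of the differences of any 257 integers is a frequent
gap, in every finite set of `n` integers at least `n (n - 256) / 512` pairs have this property, and at least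
`N / 256 - 1` of the integers `1, ..., N` are frequent gaps. One of
the differences of every admissible 44-tuple, and one of the multiples `2N, 4N, ..., 210N` of every even
number `2N`, is a frequent gap. (From `DHL[44,2]`, `Pool.Agent.H529.G.dhl44`.)
-/

set_option autoImplicit false

open Filter

namespace Pool.Agent.Results.MP_70e905_nt.DifferencesOf257

/-- For every `ε > 0` there are arbitrarily large `x` such that the gap between the prime `p_n` (with index
`n = 0, 1, ...`) and the next prime is equal to `d` for at least `x ^ (1 - ε)` primes `p_n ≤ x`. -/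
def FrequentGap (d : ℤ) : Prop :=
  ∀ ε : ℝ, 0 < ε → ∃ᶠ x : ℝ in atTop, x ^ (1 - ε) ≤ ({n : ℕ | (Nat.nth Nat.Prime n : ℝ) ≤ x ∧
    (Nat.nth Nat.Prime (n + 1) : ℤ) - Nat.nth Nat.Prime n = d}.ncard : ℝ)

/-- (1) For every finite set `S` of `n` integers at least `n (n - 256) / 512` pairs `a < b` of elements of `S`
have the property that `b - a` is a frequent gap between consecutive primes. (2) In particular this holds
for at least one pair if `n ≥ 257`. (3) For every `N` at least `N / 256 - 1` of the integers `1, ..., N` are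
frequent gaps. (4) One of the differences of every admissible 44-tuple is a frequent gap.
(5) One of the multiples `2 N, 4 N, ..., 210 N` of every even number `2 N > 0` is a frequent gap. -/
theorem result :
    (∀ S : Finset ℤ, ∃ P : Finset (ℤ × ℤ),
      (∀ p ∈ P, p.1 ∈ S ∧ p.2 ∈ S ∧ p.1 < p.2 ∧ FrequentGap (p.2 - p.1)) ∧
      (S.card : ℝ) * ((S.card : ℝ) - 256) / 512 ≤ P.card) ∧
    (∀ S : Finset ℤ, 257 ≤ S.card → ∃ a ∈ S, ∃ b ∈ S, a < b ∧ FrequentGap (b - a)) ∧
    (∀ N : ℕ, (N : ℝ) / 256 - 1 ≤ ({d : ℕ | 1 ≤ d ∧ d ≤ N ∧ FrequentGap d}.ncard : ℝ)) ∧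
    (∀ a : Fin 44 → ℤ, Function.Injective a →
      (∀ p : ℕ, p.Prime → ∃ r : ℤ, ∀ i, ¬ (p : ℤ) ∣ r + a i) →
      ∃ i j, a i < a j ∧ FrequentGap (a j - a i)) ∧
    (∀ N : ℕ, 0 < N → ∃ k : ℕ, 1 ≤ k ∧ k ≤ 105 ∧ FrequentGap ((k : ℤ) * (2 * N))) := by
  obtain ⟨h1, h2, h3, h4⟩ := Pool.Agent.H339.FP.frequent44 Pool.Agent.H529.G.dhl44
  refine ⟨h1, h2, fun N => ?_, h3, h4⟩
  have h5 := Pool.Agent.H529.R.Dens.density FrequentGap 256 h2 N
  push_cast at h5
  linarith

end Pool.Agent.Results.MP_70e905_nt.DifferencesOf257
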