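import Pool.Agent.H560.E2.Final

/-!
# Products of exactly two primes and the parity of their neighbours over `F_q[X]`, `q` even
-/

namespace Pool.Agent.Results.MP_70e905_nt.ExactlyTwoPrimesParity

open Polynomial

/-- The number of the irreducible factors of `F`, counted with multiplicity. -/
noncomputable def numFactors {K : Type} [Field K] (F : K[X]) : ℕ :=
  Multiset.card (UniqueFactorizationMonoid.factors F)

/-- The monic polynomials `f` of degree `n` such that `f = p₁ p₂` with irreducible `p₁` and `p₂`,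
`a ≤ deg p₁ ≤ b`, `deg p₂` odd and `p₁` dividing no `α i`, and such that every `f + α i` is
squarefree and has no irreducible factor of degree at most `y`. -/
def E2 (K : Type) [Field K] {k : ℕ} (α : Fin k → K[X]) (a b y : ℝ) (n : ℕ) : Set K[X] :=
  {f | f.Monic ∧ f.natDegree = n ∧
    (∃ p₁ p₂ : K[X], Irreducible p₁ ∧ Irreducible p₂ ∧ f = p₁ * p₂ ∧ a ≤ (p₁.natDegree : ℝ) ∧
      (p₁.natDegree : ℝ) ≤ b ∧ Odd p₂.natDegree ∧ ∀ i, ¬ p₁ ∣ α i) ∧
    ∀ i, Squarefree (f + α i) ∧
      ∀ P : K[X], Irreducible P → P ∣ f + α i → y < (P.natDegree : ℝ)}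

/-- Let `K` be a finite field with an even number `q` of elements, `k ≥ 1` and `ε > 0`. There are
`0 < a < b < 1/2`, `κ, c > 0` such that for all large `n` and all distinct nonzero `α 1, …, α k` of
degree less than `n`, such that `0, α 1, …, α k` is admissible: at least `c q ^ n / n ^ (k + 1)`
monic `f` of degree `n` are products of exactly two irreducible polynomials, one of degree between
`a n` and `b n` (and dividing no `α i`), the other of odd degree, with all `f + α i` squarefree and
without irreducible factor of degree at most `κ n`; and for every set `S` of indices, the proportion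
of those for which the number of irreducible factors of `f + α i` is even exactly for the `i` in `S`
is `2 ^ (-k)` up to `ε`. -/
theorem result (K : Type) [Field K] [Fintype K] [CharP K 2] (k : ℕ) (ε : ℝ) (hk : 1 ≤ k)
    (hε : 0 < ε) :
    ∃ a b κ c : ℝ, 0 < a ∧ a < b ∧ b < 1 / 2 ∧ 0 < κ ∧ 0 < c ∧ ∃ n₀ : ℕ, ∀ n : ℕ, n₀ ≤ n →
      ∀ α : Fin k → K[X], Function.Injective α → (∀ i, α i ≠ 0) → (∀ i, (α i).natDegree < n) →
        (∀ P : K[X], Irreducible P → ∃ x : K[X], ¬ P ∣ x ∧ ∀ i, ¬ P ∣ x + α i) →
        c * (Fintype.card K : ℝ) ^ n / (n : ℝ) ^ (k + 1) ≤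
          (E2 K α (a * n) (b * n) (κ * n) n).ncard ∧
        ∀ S : Set (Fin k),
          |({f ∈ E2 K α (a * n) (b * n) (κ * n) n |
              ∀ i, Even (numFactors (f + α i)) ↔ i ∈ S}.ncard : ℝ) -
            (E2 K α (a * n) (b * n) (κ * n) n).ncard / 2 ^ k| ≤
              ε * (E2 K α (a * n) (b * n) (κ * n) n).ncard :=
  Pool.Agent.H560.E2.s_top K k ε hk hε

end Pool.Agent.Results.MP_70e905_nt.ExactlyTwoPrimesParity
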