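import Pool.Agent.H530.HaO

/-!
# Differences of two almost primes, both with an odd number of prime factors

There is an absolute `R` such that the following holds for the set of the `h` for which there are, for
every length `l`, arbitrarily large narrow progressions of `l` integers `n` such that `n` and `n + h` both
have an odd number of prime factors, all larger than the `R`-th root: it contains one of `a`, `b`, `a + b`
for all even `a`, `b` such that `0`, `a`, `a + b` is admissible; it contains all multiples of `6` or, for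
some `c` and every even `h`, one of `h` and `h + c`; and it contains at least one third of the even
numbers.
-/

set_option autoImplicit false

namespace Pool.Agent.Results.MP_70e905_nt.OddAlmostPrimeGaps

open Finset

/-- `m` has an odd number of prime factors (with multiplicity), and all of them are larger than the
`R`-th root of `m`; so `m` has at most `R` prime factors -/
def OddAlmost (R m : ℕ) : Prop :=
  Odd (ArithmeticFunction.cardFactors m) ∧ ∀ p : ℕ, p.Prime → p ∣ m → m < p ^ R

/-- `h ≥ 1`, and for every `l` there are a `B` and arbitrarily large `n` such that for some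
`1 ≤ d ≤ (log n) ^ B` all the `n + j d` and `n + j d + h`, `j < l`, are `OddAlmost R` -/
def Gap (R h : ℕ) : Prop := 1 ≤ h ∧ ∀ l : ℕ, ∃ B : ℕ, ∀ N : ℕ, ∃ n d : ℕ, N ≤ n ∧ 1 ≤ d ∧
  (d : ℝ) ≤ Real.log n ^ B ∧ ∀ j < l, OddAlmost R (n + j * d) ∧ OddAlmost R (n + j * d + h)

lemma adm3 {s : Fin 3 → ℕ} (h2 : ∀ j, Even (s j)) (h3 : ∃ n, ∀ j, ¬ 3 ∣ n + s j) (p : ℕ) (hp : p.Prime) :
    ∃ n : ℕ, ∀ j, ¬ p ∣ n + s j := by
  rcases Nat.lt_or_ge 3 p with h | h
  · -- more classes than elements
    have : NeZero p := ⟨hp.ne_zero⟩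
    have hcard : ((univ : Finset (Fin 3)).image (fun j => (-(s j : ℕ) : ZMod p))).card <
        (Finset.univ : Finset (ZMod p)).card := by
      refine lt_of_le_of_lt Finset.card_image_le ?_
      rw [Finset.card_univ, Finset.card_univ, ZMod.card, Fintype.card_fin]
      exact h
    obtain ⟨c, -, hc⟩ := Finset.exists_mem_notMem_of_card_lt_card hcard
    refine ⟨c.val, fun i hd => hc ?_⟩
    rw [Finset.mem_image]
    refine ⟨i, mem_univ _, ?_⟩
    have := (ZMod.natCast_eq_zero_iff (c.val + s i) p).2 hd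
    push_cast at this
    rw [ZMod.natCast_zmod_val] at this
    linear_combination -this
  · have hp2 := hp.two_le
    interval_cases p
    · refine ⟨1, fun j hd => ?_⟩
      obtain ⟨r, hr⟩ := h2 j
      omega
    · exact h3

/-- the theorem on triples -/
theorem triple {R : ℕ} (H : ∀ s : Fin 3 → ℕ, StrictMono s → (∀ p : ℕ, p.Prime → ∃ n : ℕ, ∀ j, ¬ p ∣ n + s j) →
    ∃ i j : Fin 3, i < j ∧ Pool.Agent.H530.Ha.PP R (s j - s i)) {a b : ℕ} (ha : 1 ≤ a) (hb : 1 ≤ b) (ha2 : Even a)
    (hb2 : Even b) (h3 : 3 ∣ a ∨ 3 ∣ b ∨ 3 ∣ a + b) : Gap R a ∨ Gap R b ∨ Gap R (a + b) := by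
  have hG : ∀ h, 1 ≤ h → Pool.Agent.H530.Ha.PP R h → Gap R h := fun h h1 h2 => ⟨h1, h2⟩
  obtain ⟨i, j, hij, hP⟩ := H ![0, a, a + b] (by
    intro i j hij
    fin_cases i <;> fin_cases j <;> simp_all <;> omega) (adm3 (by
    intro j
    fin_cases j
    · exact ⟨0, rfl⟩
    · exact ha2
    · exact ha2.add hb2) (by
    -- a class modulo `3` which is missed
    have h4 : ∃ n, n < 3 ∧ ¬ 3 ∣ n + 0 ∧ ¬ 3 ∣ n + a ∧ ¬ 3 ∣ n + (a + b) := by
      have e1 : a % 3 < 3 := Nat.mod_lt _ (by norm_num)
      have e2 : b % 3 < 3 := Nat.mod_lt _ (by norm_num)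
      by_cases q1 : ¬ 3 ∣ 1 + a ∧ ¬ 3 ∣ 1 + (a + b)
      · exact ⟨1, by norm_num, by norm_num, q1.1, q1.2⟩
      · refine ⟨2, by norm_num, by norm_num, ?_, ?_⟩ <;> omega
    obtain ⟨n, -, g1, g2, g3⟩ := h4
    refine ⟨n, fun j => ?_⟩
    fin_cases j
    · exact g1
    · exact g2
    · exact g3))
  have key : ∀ i j : Fin 3, i < j → (![0, a, a + b] j - ![0, a, a + b] i = a ∨ ![0, a, a + b] j - ![0, a, a + b] i = b ∨
      ![0, a, a + b] j - ![0, a, a + b] i = a + b) := by
    intro i j hij
    fin_cases i <;> fin_cases j <;> simp_all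
  rcases key i j hij with h | h | h <;> rw [h] at hP
  · exact Or.inl (hG a ha hP)
  · exact Or.inr (Or.inl (hG b hb hP))
  · exact Or.inr (Or.inr (hG (a + b) (by omega) hP))

open Classical in
/-- **At least one third of the even numbers are differences of odd almost primes, in long narrow
progressions.** -/
theorem result : ∃ R : ℕ,
    -- one of `a`, `b`, `a + b`
    (∀ a b : ℕ, 1 ≤ a → 1 ≤ b → Even a → Even b → (3 ∣ a ∨ 3 ∣ b ∨ 3 ∣ a + b) →
      Gap R a ∨ Gap R b ∨ Gap R (a + b)) ∧
    -- all multiples of `6`, or one of `h` and `h + c` for all even `h`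
    ((∀ m : ℕ, 1 ≤ m → Gap R (6 * m)) ∨
      ∃ c : ℕ, ∀ h : ℕ, 1 ≤ h → Even h → Gap R h ∨ Gap R (h + c)) ∧
    -- the density
    ∃ C : ℕ, ∀ x : ℕ, x ≤ 6 * ((Icc 1 x).filter (fun h => Gap R h)).card + C := by
  obtain ⟨R, hR, H⟩ := Pool.Agent.H530.Ha.diff3
  have h1 : ∀ a b : ℕ, 1 ≤ a → 1 ≤ b → Even a → Even b → (3 ∣ a ∨ 3 ∣ b ∨ 3 ∣ a + b) →
      Gap R a ∨ Gap R b ∨ Gap R (a + b) := fun a b ha hb ha2 hb2 h3 => triple H ha hb ha2 hb2 h3
  refine ⟨R, h1, ?_, ?_⟩
  · by_cases h : ∀ m : ℕ, 1 ≤ m → Gap R (6 * m)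
    · exact Or.inl h
    · push Not at h
      obtain ⟨m, hm, hG⟩ := h
      refine Or.inr ⟨6 * m, fun h hh he => ?_⟩
      rcases h1 (6 * m) h (by omega) hh ⟨3 * m, by ring⟩ he (Or.inl ⟨2 * m, by ring⟩) with h2 | h2 | h2
      · exact absurd h2 hG
      · exact Or.inl h2
      · rw [add_comm] at h2
        exact Or.inr h2
  · by_cases h : ∀ m : ℕ, 1 ≤ m → Gap R (6 * m)
    · refine ⟨6, fun x => ?_⟩
      have h2 : (Icc 1 (x / 6)).image (fun m => 6 * m) ⊆ (Icc 1 x).filter (fun h => Gap R h) := by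
        intro y hy
        obtain ⟨m, hm, rfl⟩ := mem_image.1 hy
        rw [mem_Icc] at hm
        rw [mem_filter, mem_Icc]
        exact ⟨⟨by omega, by omega⟩, h m hm.1⟩
      have h3 := card_le_card h2
      rw [card_image_of_injective _ (fun a b hab => by simpa using hab), Nat.card_Icc] at h3
      omega
    · push Not at h
      obtain ⟨m, hm, hG⟩ := h
      have h4 : ∀ h : ℕ, 1 ≤ h → Even h → Gap R h ∨ Gap R (h + 6 * m) := by
        intro h hh he
        rcases h1 (6 * m) h (by omega) hh ⟨3 * m, by ring⟩ he (Or.inl ⟨2 * m, by ring⟩) with h2 | h2 | h2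
        · exact absurd h2 hG
        · exact Or.inl h2
        · rw [add_comm] at h2
          exact Or.inr h2
      refine ⟨6 * m + 4, fun x => ?_⟩
      set D := (Icc 1 x).filter (fun h => Gap R h) with hD
      have h5 : (Icc 1 ((x - 6 * m) / 2)).image (fun t => 2 * t) ⊆ D ∪ D.image (fun t => t - 6 * m) := by
        intro y hy
        obtain ⟨t, ht, rfl⟩ := mem_image.1 hy
        rw [mem_Icc] at ht
        rw [mem_union]
        rcases h4 (2 * t) (by omega) ⟨t, by ring⟩ with h6 | h6
        · left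
          rw [hD, mem_filter, mem_Icc]
          exact ⟨⟨by omega, by omega⟩, h6⟩
        · right
          rw [mem_image]
          refine ⟨2 * t + 6 * m, ?_, by omega⟩
          rw [hD, mem_filter, mem_Icc]
          exact ⟨⟨by omega, by omega⟩, h6⟩
      have h6 := card_le_card h5
      rw [card_image_of_injective _ (fun a b hab => by simpa using hab), Nat.card_Icc] at h6
      have h7 := card_union_le D (D.image (fun t => t - 6 * m))
      have h8 : (D.image (fun t => t - 6 * m)).card ≤ D.card := card_image_le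
      omega

end Pool.Agent.Results.MP_70e905_nt.OddAlmostPrimeGaps
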